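import Pool.Agent.Lib.MP_b07157_agSP.Defs
import Pool.Agent.Lib.MP_b07157_agSD.Sqh
import Pool.Agent.Lib.MP_b07157_agE.EB
import Pool.Agent.Lib.MP_b07157_agE.EZ

/-!
# The conjecture along sets where the polynomial is a power of a semi-quasi-homogeneous one
-/

noncomputable section

namespace MPb07157

open MvPolynomial

variable {n k : ℕ}

namespace SqP

open W

theorem isConstr_start (m : ℕ) {V : Set (Fin n → ℂ)} (hV : IsConstr V) :
    IsConstr {ξ : Fin n × Fin (m + 1) → ℂ | (fun i => ξ (i, 0)) ∈ V} :=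
  hV.reindex (fun i => ((i, 0) : Fin n × Fin (m + 1)))

theorem ser_start (f : MvPolynomial (Fin n) ℂ) {V : Set (Fin n → ℂ)} (hV : IsConstr V) :
    ser f 1 {ξ | (fun i => ξ (i, 0)) ∈ V} = seriesAt f V := by
  ext k
  rw [coeff_ser f (isConstr_start 0 hV) (N := k + 1) (by omega) (by omega)]
  unfold seriesAt nrm
  rw [PowerSeries.coeff_mk]
  congr 2
  ext γ
  simp only [cyl, AtW, Set.mem_inter_iff, Set.mem_ofPred_eq]
  refine and_congr_right fun _ => ?_
  rw [tr_arc (by omega)]
  rfl

/-- The zeta function of a power. -/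
theorem seriesAt_pow {h : MvPolynomial (Fin n) ℂ} {m : ℕ} (hm : 0 < m) {V : Set (Fin n → ℂ)}
    (hV : IsConstr V) : seriesAt (h ^ m) V = PowerSeries.expand m hm.ne' (seriesAt h V) := by
  ext l
  rw [← ser_start _ hV, ← ser_start _ hV,
    coeff_ser _ (isConstr_start 0 hV) (N := l + 1) (by omega) (by omega)]
  have horder : ∀ γ : Fin n × Fin (l + 1) → ℂ, (aeval (arc γ) (h ^ m) : PowerSeries ℂ).order =
      m • (aeval (arc γ) h : PowerSeries ℂ).order := by
    intro γ
    rw [map_pow, PowerSeries.order_pow]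
  by_cases hl : m ∣ l
  · obtain ⟨r, rfl⟩ := hl
    have hr : r ≤ m * r := Nat.le_mul_of_pos_left r hm
    rw [PowerSeries.coeff_expand_mul,
      coeff_ser _ (isConstr_start 0 hV) (N := m * r + 1) (by omega) (by omega)]
    congr 1
    ext γ
    simp only [cyl, arcs, Set.mem_ofPred_eq]
    refine and_congr_left fun _ => ?_
    rw [horder]
    exact smul_eq_iff hm _
  · rw [PowerSeries.coeff_expand_of_not_dvd _ _ _ hl]
    have h1 : cyl (h ^ m) 1 {ξ | (fun i => ξ (i, 0)) ∈ V} (l + 1) l = ∅ := by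
      rw [Set.eq_empty_iff_forall_notMem]
      rintro γ ⟨h1, -⟩
      have h2 : (aeval (arc γ) (h ^ m) : PowerSeries ℂ).order = (l : ℕ∞) := h1
      rw [horder] at h2
      exact hl (dvd_of_smul_eq h2 hm)
    unfold nrm clsM
    rw [h1, cls_empty, map_zero, mul_zero]

theorem formEquivPow_of_pow {f a h : MvPolynomial (Fin n) ℂ} {m : ℕ} (haf : a * f = h ^ m)
    {p : Fin n → ℂ} (ha : eval p a ≠ 0) :
    FormEquivPow (translate p f) (translate p h) m := by
  have hu : IsUnit ((translate p a : MvPolynomial (Fin n) ℂ) : MvPowerSeries (Fin n) ℂ) := by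
    rw [MvPowerSeries.isUnit_iff_constantCoeff, Str.constantCoeff_coe,
      Str.constantCoeff_translate]
    exact isUnit_iff_ne_zero.2 ha
  obtain ⟨u, hu⟩ := hu
  refine ⟨AlgEquiv.refl, u⁻¹, ?_⟩
  have h1 : translate p a * translate p f = translate p h ^ m := by
    unfold translate
    rw [← map_mul, haf, map_pow]
  have h2 := congrArg (fun q : MvPolynomial (Fin n) ℂ => (q : MvPowerSeries (Fin n) ℂ)) h1
  simp only [coe_mul, coe_pow] at h2
  rw [AlgEquiv.coe_refl, id, ← h2, ← hu, ← mul_assoc, Units.inv_mul, one_mul]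

end SqP

theorem SqhAlong.toPow {f : MvPolynomial (Fin n) ℂ} {W : Set (Fin n → ℂ)} {w : Fin k → ℕ} {N : ℕ}
    (h : SqhAlong f W w N) : SqhAlongPow f W w N 1 :=
  ⟨one_pos, 1, f, fun p _ => by rw [map_one]; exact one_ne_zero, by rw [one_mul, pow_one], h⟩

open SqP in
theorem MonoAlong.of_sqhAlongPow {f : MvPolynomial (Fin n) ℂ} (hf : f ≠ 0)
    {W : Set (Fin n → ℂ)} {w : Fin k → ℕ} {N m : ℕ} (H : SqhAlongPow f W w N m) :
    MonoAlong f W := by
  intro V hV hVc hV0 s₀ hs hs1 hser b hb
  obtain ⟨hm, a, h, ha, haf, hh⟩ := H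
  have h' : SqhAlong h V w N := hh.mono hV
  have hmC : (m : ℂ) ≠ 0 := by exact_mod_cast hm.ne'
  have e1 : seriesAt f V = PowerSeries.expand m hm.ne' (seriesAt h V) := by
    rw [SqA.seriesAt_unit (a := a) fun p hp => ha p (hV hp), haf, seriesAt_pow hm hVc]
  have hser' : seriesAt h V ∉ regularAt (m * s₀) := fun h1 =>
    hser (e1 ▸ expand_mem_regularAt hm h1)
  obtain ⟨p, hp⟩ : V.Nonempty := by
    by_contra hne
    rw [Set.not_nonempty_iff_eq_empty] at hne
    apply hser
    exact seriesAt_mem_of_ne (f := f) (W := V) hVc hf (fun p hp => by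
      rw [hne] at hp
      exact absurd hp (Set.notMem_empty p)) s₀
  have hap := ha p (hV hp)
  have hh0 : h ≠ 0 := by
    rintro rfl
    rw [zero_pow hm.ne'] at haf
    rcases mul_eq_zero.1 haf with h1 | h1
    · exact hap (by rw [h1, map_zero])
    · exact hf h1
  have hhp : eval p h = 0 := by
    have h1 := congrArg (eval p) haf
    rw [map_mul, hV0 p hp, mul_zero, map_pow] at h1
    exact pow_eq_zero_iff hm.ne' |>.1 h1.symm
  have hroot : ∀ b' : Polynomial ℂ, InDnForm (translate p h) 1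
      (b'.map (MvPowerSeries.C (σ := Fin n) (R := ℂ))) → b'.eval (((m * s₀ : ℚ)) : ℂ) = 0 := by
    intro b' hb'
    by_cases hm1 : (m * s₀ : ℚ) = -1
    · rw [hm1]
      refine neg_one_root (f := translate p h) (translate_ne_zero hh0 p) ?_ b' hb'
      rw [notMem_support_iff]
      exact coeff_zero_translate hhp
    · have hN : (N : ℚ) ≠ 0 := by exact_mod_cast h'.1.ne'
      by_cases hs2 : (m * s₀ : ℚ) * N = -∑ j, (w j : ℚ)
      · have h1 := SqA.root hh0 h' hp hb'
        have h2 : (m * s₀ : ℚ) = -((∑ j, w j : ℕ) : ℚ) / N := by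
          rw [eq_div_iff hN, hs2]
          push_cast
          rfl
        rw [h2, ← h1]
        congr 1
        push_cast
        rfl
      · exact absurd (h'.seriesAt_mem hVc hm1 hs2) hser'
  have h1 := hroot _ (form_of_formEquivPow hm (formEquivPow_of_pow haf hap) (form_translate p hb))
  rw [Polynomial.eval_comp] at h1
  simp only [Polynomial.eval_mul, Polynomial.eval_C, Polynomial.eval_X] at h1
  push_cast at h1
  rw [inv_mul_cancel_left₀ hmC] at h1
  exact h1

end MPb07157
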