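import Pool.Agent.Lib.MP_b07157_agSA.Defs

/-!
# Powers of polynomials which are semi-quasi-homogeneous along a set
-/

noncomputable section

namespace MPb07157

open MvPolynomial

variable {n k : ℕ}

/-- Near the points of `W`, the polynomial `f` is a unit times the `m`-th power of a polynomial which
is semi-quasi-homogeneous along `W`, with respect to the weights `w`. -/
def SqhAlongPow (f : MvPolynomial (Fin n) ℂ) (W : Set (Fin n → ℂ)) (w : Fin k → ℕ) (N m : ℕ) :
    Prop :=
  0 < m ∧ ∃ a h : MvPolynomial (Fin n) ℂ, (∀ p ∈ W, eval p a ≠ 0) ∧ a * f = h ^ m ∧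
    SqhAlong h W w N

end MPb07157
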